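import Pool.Agent.LE.StmtsQD

/-!
# Squad LQD, row DSL: lower bound for the density of states with the weight `sin ^ 2`
-/

set_option autoImplicit false

open scoped BigOperators

noncomputable section

namespace Pool.Agent.LE.QD.H69

open Pool.Agent.Anderson hiding box mem_box card_box
open Pool.Agent.Loc Pool.Agent.Mob Pool.Agent.Helper54.Bal
  Pool.Agent.Helper96.EXP Pool.Agent.BED
open Pool.Agent.LE.MN Pool.Agent.LE.CL Pool.Agent.LE.IR

/-- the angle -/
def ang (M : ℕ) (x : ZMod M) : ℝ := 2 * Real.pi * (x.valMinAbs : ℝ) / M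

theorem es_eq {d M : ℕ} [NeZero M] (p : Tor d M) :
    es p = ∑ k, 2 * Real.cos (ang M (p k)) := by
  unfold es ds ang
  have h : ∑ k : Fin d, 2 * (1 - Real.cos (2 * Real.pi * ((p k).valMinAbs : ℝ) / M)) =
      (∑ _k : Fin d, (2 : ℝ)) - ∑ k, 2 * Real.cos (2 * Real.pi * ((p k).valMinAbs : ℝ) / M) := by
    rw [← Finset.sum_sub_distrib]
    apply Finset.sum_congr rfl
    intro k _
    ring
  rw [h, Finset.sum_const, Finset.card_univ, Fintype.card_fin, nsmul_eq_mul]
  ring

/-- the angle of a small natural number -/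
theorem ang_nat {M : ℕ} [NeZero M] {k : ℕ} (h : 2 * Real.pi * (k : ℝ) / M ≤ Real.pi) :
    ang M ((k : ℕ) : ZMod M) = 2 * Real.pi * (k : ℝ) / M := by
  have hM : (0 : ℝ) < M := by exact_mod_cast Nat.pos_of_ne_zero (NeZero.ne M)
  have hpi := Real.pi_pos
  rw [div_le_iff₀ hM] at h
  have h1 : 2 * (k : ℝ) ≤ M := by nlinarith
  have h2 : 2 * k ≤ M := by exact_mod_cast h1
  unfold ang
  rw [ZMod.valMinAbs_natCast_of_le_half (by omega)]
  simp

/-- a block of momenta with angles in an interval -/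
theorem block {M : ℕ} [NeZero M] {β L : ℝ} (hβ : 0 ≤ β) (hL : β + L ≤ Real.pi)
    (hL0 : 0 ≤ L) : ∃ B : ℕ, ∀ k < ⌊L * M / (2 * Real.pi)⌋₊,
      β ≤ 2 * Real.pi * ((B + k : ℕ) : ℝ) / M ∧ 2 * Real.pi * ((B + k : ℕ) : ℝ) / M ≤ β + L ∧
        ang M ((B + k : ℕ) : ZMod M) = 2 * Real.pi * ((B + k : ℕ) : ℝ) / M := by
  have hM : (0 : ℝ) < M := by exact_mod_cast Nat.pos_of_ne_zero (NeZero.ne M)
  have hpi := Real.pi_pos
  refine ⟨⌈β * M / (2 * Real.pi)⌉₊, fun k hk => ?_⟩
  have h1 : β * M / (2 * Real.pi) ≤ (⌈β * M / (2 * Real.pi)⌉₊ : ℝ) := Nat.le_ceil _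
  have h2 : (⌈β * M / (2 * Real.pi)⌉₊ : ℝ) < β * M / (2 * Real.pi) + 1 :=
    Nat.ceil_lt_add_one (by positivity)
  have h3 : ((k + 1 : ℕ) : ℝ) ≤ (⌊L * M / (2 * Real.pi)⌋₊ : ℝ) := by exact_mod_cast hk
  have h4 : (⌊L * M / (2 * Real.pi)⌋₊ : ℝ) ≤ L * M / (2 * Real.pi) := Nat.floor_le (by positivity)
  push_cast at h3
  have e1 : 2 * Real.pi * (β * M / (2 * Real.pi)) / M = β := by field_simp
  have e2 : 2 * Real.pi * (L * M / (2 * Real.pi)) / M = L := by field_simp
  have h0k : (0 : ℝ) ≤ k := Nat.cast_nonneg k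
  have a1 : β ≤ 2 * Real.pi * ((⌈β * M / (2 * Real.pi)⌉₊ + k : ℕ) : ℝ) / M := by
    push_cast
    calc β = 2 * Real.pi * (β * M / (2 * Real.pi)) / M := e1.symm
      _ ≤ _ := by
        apply div_le_div_of_nonneg_right _ hM.le
        exact mul_le_mul_of_nonneg_left (by linarith) (by positivity)
  have a2 : 2 * Real.pi * ((⌈β * M / (2 * Real.pi)⌉₊ + k : ℕ) : ℝ) / M ≤ β + L := by
    push_cast
    calc 2 * Real.pi * ((⌈β * M / (2 * Real.pi)⌉₊ : ℝ) + k) / M
        ≤ 2 * Real.pi * (β * M / (2 * Real.pi) + L * M / (2 * Real.pi)) / M := by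
          apply div_le_div_of_nonneg_right _ hM.le
          exact mul_le_mul_of_nonneg_left (by linarith) (by positivity)
      _ = β + L := by
          rw [mul_add, add_div, e1, e2]
  exact ⟨a1, a2, ang_nat (a2.trans hL)⟩

/-- the map to the momenta is injective -/
theorem block_inj {M n B : ℕ} [NeZero M] (h : ∀ k < n,
      ang M ((B + k : ℕ) : ZMod M) = 2 * Real.pi * ((B + k : ℕ) : ℝ) / M) :
    Set.InjOn (fun k : ℕ => ((B + k : ℕ) : ZMod M)) (Finset.range n : Set ℕ) := by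
  intro k hk k' hk' hkk
  have hM : (0 : ℝ) < M := by exact_mod_cast Nat.pos_of_ne_zero (NeZero.ne M)
  have hpi := Real.pi_pos
  have h1 := h k (by simpa using hk)
  have h2 := h k' (by simpa using hk')
  simp only at hkk
  rw [hkk, h2] at h1
  rw [div_left_inj' hM.ne'] at h1
  have h3 : ((B + k' : ℕ) : ℝ) = ((B + k : ℕ) : ℝ) := by
    have := mul_left_cancel₀ (by positivity : (2 * Real.pi) ≠ 0) h1
    exact this
  have h4 : B + k' = B + k := by exact_mod_cast h3
  omega

/-- an interval of length `L` with an end at `θ` inside of `[0, π]` -/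
theorem side {θ L : ℝ} (h0 : 0 ≤ θ) (h1 : θ ≤ Real.pi) (hL0 : 0 ≤ L) (hL : L ≤ 1) :
    ∃ β : ℝ, 0 ≤ β ∧ β + L ≤ Real.pi ∧ ∀ x, β ≤ x → x ≤ β + L → |x - θ| ≤ L := by
  have hpi := Real.pi_gt_three
  rcases le_total θ (Real.pi / 2) with h | h
  · refine ⟨θ, h0, by linarith, fun x hx hx' => ?_⟩
    rw [abs_le]
    constructor <;> linarith
  · refine ⟨θ - L, by linarith, by linarith, fun x hx hx' => ?_⟩
    rw [abs_le]
    constructor <;> linarith

/-- the number of momenta with energy close to `y` -/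
theorem cnt {M : ℕ} [NeZero M] {y η : ℝ} (hy : |y| ≤ 1) (hη : 0 < η) (hη1 : η ≤ 1) :
    (⌊η / 2 * M / (2 * Real.pi)⌋₊ : ℝ) ≤
      ∑ x : ZMod M, if |2 * Real.cos (ang M x) - 2 * y| ≤ η then (1 : ℝ) else 0 := by
  classical
  rw [abs_le] at hy
  obtain ⟨β, hβ, hβL, hx⟩ := side (θ := Real.arccos y) (L := η / 2) (Real.arccos_nonneg y)
    (Real.arccos_le_pi y) (by linarith) (by linarith)
  obtain ⟨B, hB⟩ := block (M := M) hβ hβL (by linarith)
  have hinj := block_inj (M := M) (B := B) (fun k hk => (hB k hk).2.2)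
  calc (⌊η / 2 * M / (2 * Real.pi)⌋₊ : ℝ)
      = ∑ _k ∈ Finset.range ⌊η / 2 * M / (2 * Real.pi)⌋₊, (1 : ℝ) := by
        rw [Finset.sum_const, Finset.card_range, nsmul_eq_mul, mul_one]
    _ ≤ ∑ k ∈ Finset.range ⌊η / 2 * M / (2 * Real.pi)⌋₊,
        (if |2 * Real.cos (ang M ((B + k : ℕ) : ZMod M)) - 2 * y| ≤ η then (1 : ℝ) else 0) := by
        apply Finset.sum_le_sum
        intro k hk
        obtain ⟨h1, h2, h3⟩ := hB k (Finset.mem_range.1 hk)
        rw [if_pos]
        rw [h3]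
        have h4 := hx _ h1 h2
        have h5 := Real.abs_cos_sub_cos_le (2 * Real.pi * ((B + k : ℕ) : ℝ) / M) (Real.arccos y)
        rw [Real.cos_arccos hy.1 hy.2] at h5
        have h6 : 2 * Real.cos (2 * Real.pi * ((B + k : ℕ) : ℝ) / M) - 2 * y =
            2 * (Real.cos (2 * Real.pi * ((B + k : ℕ) : ℝ) / M) - y) := by ring
        rw [h6, abs_mul, abs_of_pos (by norm_num : (0 : ℝ) < 2)]
        linarith
    _ = ∑ x ∈ (Finset.range ⌊η / 2 * M / (2 * Real.pi)⌋₊).image
          (fun k : ℕ => ((B + k : ℕ) : ZMod M)),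
        (if |2 * Real.cos (ang M x) - 2 * y| ≤ η then (1 : ℝ) else 0) := by
        rw [Finset.sum_image hinj]
    _ ≤ _ := by
        apply Finset.sum_le_sum_of_subset_of_nonneg (Finset.subset_univ _)
        intro x _ _
        split_ifs <;> norm_num

/-- the weight of a block -/
theorem wgt {M m B : ℕ} [NeZero M] (a : ℝ) (hm : 2 * Real.pi * (m : ℝ) / M ≤ Real.pi / 2)
    (hB : ∀ k < 2 * m, ang M ((B + k : ℕ) : ZMod M) = 2 * Real.pi * ((B + k : ℕ) : ℝ) / M) :
    (m : ℝ) * (2 / Real.pi ^ 2 * (2 * Real.pi * (m : ℝ) / M) ^ 2) ≤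
      ∑ x ∈ (Finset.range (2 * m)).image (fun k : ℕ => ((B + k : ℕ) : ZMod M)),
        Real.sin (ang M x - a) ^ 2 := by
  classical
  have hM : (0 : ℝ) < M := by exact_mod_cast Nat.pos_of_ne_zero (NeZero.ne M)
  have hpi := Real.pi_pos
  rw [Finset.sum_image (block_inj hB)]
  have h1 : ∑ k ∈ Finset.range (2 * m), Real.sin (ang M ((B + k : ℕ) : ZMod M) - a) ^ 2 =
      ∑ k ∈ Finset.range m, (Real.sin (2 * Real.pi * ((B + k : ℕ) : ℝ) / M - a) ^ 2 +
        Real.sin (2 * Real.pi * ((B + k : ℕ) : ℝ) / M - a + 2 * Real.pi * (m : ℝ) / M) ^ 2) := by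
    rw [two_mul, Finset.sum_range_add, Finset.sum_add_distrib]
    congr 1
    · apply Finset.sum_congr rfl
      intro k hk
      rw [hB k (by have := Finset.mem_range.1 hk; omega)]
    · apply Finset.sum_congr rfl
      intro k hk
      rw [hB (m + k) (by have := Finset.mem_range.1 hk; omega)]
      congr 2
      push_cast
      ring
  rw [h1]
  have h2 : ∀ x : ℝ, 2 / Real.pi ^ 2 * (2 * Real.pi * (m : ℝ) / M) ^ 2 ≤
      Real.sin x ^ 2 + Real.sin (x + 2 * Real.pi * (m : ℝ) / M) ^ 2 := by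
    intro x
    obtain ⟨t, ht⟩ : ∃ t, t = 2 * Real.pi * (m : ℝ) / M := ⟨_, rfl⟩
    rw [← ht] at hm ⊢
    have ht0 : 0 ≤ t := by rw [ht]; positivity
    have h3 := Real.cos_le_one_sub_mul_cos_sq (x := t) (by rw [abs_of_nonneg ht0]; linarith)
    have h7 : 0 ≤ Real.cos t := Real.cos_nonneg_of_neg_pi_div_two_le_of_le (by linarith) hm
    have h4 : Real.sin x ^ 2 + Real.sin (x + t) ^ 2 = 1 - Real.cos (2 * x + t) * Real.cos t := by
      have e1 : Real.cos (2 * x + t) * Real.cos t =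
          (Real.cos (2 * (x + t)) + Real.cos (2 * x)) / 2 := by
        rw [Real.cos_add_cos]
        have e2 : (2 * (x + t) + 2 * x) / 2 = 2 * x + t := by ring
        have e3 : (2 * (x + t) - 2 * x) / 2 = t := by ring
        rw [e2, e3]
        ring
      rw [e1, Real.cos_two_mul, Real.cos_two_mul]
      have e4 := Real.sin_sq_add_cos_sq x
      have e5 := Real.sin_sq_add_cos_sq (x + t)
      linarith
    rw [h4]
    have h5 := Real.neg_one_le_cos (2 * x + t)
    have h6 := Real.cos_le_one (2 * x + t)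
    have h8 : Real.cos (2 * x + t) * Real.cos t ≤ 1 * Real.cos t :=
      mul_le_mul_of_nonneg_right h6 h7
    linarith
  calc (m : ℝ) * (2 / Real.pi ^ 2 * (2 * Real.pi * (m : ℝ) / M) ^ 2)
      = ∑ _k ∈ Finset.range m, (2 / Real.pi ^ 2 * (2 * Real.pi * (m : ℝ) / M) ^ 2) := by
        rw [Finset.sum_const, Finset.card_range, nsmul_eq_mul]
    _ ≤ _ := Finset.sum_le_sum fun k _ => h2 _

/-- splitting of the sum -/
theorem split {d M : ℕ} [NeZero M] (j : Fin d) (f : Tor d M → ℝ) :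
    ∑ p, f p = ∑ q : {k : Fin d // k ≠ j} → ZMod M, ∑ x : ZMod M,
      f ((Equiv.funSplitAt j (ZMod M)).symm (x, q)) := by
  rw [← Equiv.sum_comp (Equiv.funSplitAt j (ZMod M)).symm f, Fintype.sum_prod_type,
    Finset.sum_comm]

theorem prod_one {ι M : Type} [Fintype ι] [DecidableEq ι] [DecidableEq M] (W : Finset M)
    (w : M → ℝ) (i : ι) :
    ∑ q ∈ Fintype.piFinset (fun _ : ι => W), w (q i) =
      (∑ x ∈ W, w x) * (W.card : ℝ) ^ (Fintype.card ι - 1) := by
  have h := Finset.prod_univ_sum (fun _ : ι => W) (fun (k : ι) (x : M) => if k = i then w x else 1)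
  have h1 : ∀ q : ι → M, ∏ k, (if k = i then w (q k) else 1) = w (q i) := by
    intro q
    rw [Finset.prod_ite_eq' Finset.univ i (fun k => w (q k)), if_pos (Finset.mem_univ i)]
  simp only [h1] at h
  rw [← h, ← Finset.mul_prod_erase Finset.univ _ (Finset.mem_univ i)]
  simp only [if_true]
  congr 1
  rw [Finset.prod_congr rfl (g := fun _ => (W.card : ℝ)), Finset.prod_const,
    Finset.card_erase_of_mem (Finset.mem_univ i), Finset.card_univ]
  intro k hk
  rw [Finset.mem_erase] at hk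
  simp only [if_neg hk.1]
  rw [Finset.sum_const, nsmul_eq_mul, mul_one]

/-- DSL -/
theorem dsl : DslStmt := by
  intro d δ hd hδ
  classical
  have hpi := Real.pi_gt_three
  have hpi4 := Real.pi_lt_four
  have hd0 : (3 : ℝ) ≤ d := by exact_mod_cast hd
  obtain ⟨r, hr⟩ : ∃ r, r = min (1 / 3) (δ / (2 * d ^ 2) : ℝ) := ⟨_, rfl⟩
  have hr0 : 0 < r := by rw [hr]; exact lt_min (by norm_num) (by positivity)
  have hr1 : r ≤ 1 / 3 := by rw [hr]; exact min_le_left _ _
  have hr2 : r ≤ δ / (2 * d ^ 2) := by rw [hr]; exact min_le_right _ _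
  obtain ⟨c, hc⟩ : ∃ c, c = 1 / (8 * Real.pi) * (r / (8 * Real.pi)) ^ (d - 1) *
    (r ^ 2 / (8 * Real.pi ^ 2)) := ⟨_, rfl⟩
  have hc0 : 0 < c := by rw [hc]; positivity
  have hc1 : c ≤ 1 := by
    rw [hc]
    have h1 : 1 / (8 * Real.pi) ≤ 1 := by rw [div_le_one (by positivity)]; linarith
    have h2 : r / (8 * Real.pi) ≤ 1 := by rw [div_le_one (by positivity)]; linarith
    have h3 : (r / (8 * Real.pi)) ^ (d - 1) ≤ 1 := pow_le_one₀ (by positivity) h2
    have h4 : r ^ 2 / (8 * Real.pi ^ 2) ≤ 1 := by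
      rw [div_le_one (by positivity)]; nlinarith
    calc 1 / (8 * Real.pi) * (r / (8 * Real.pi)) ^ (d - 1) * (r ^ 2 / (8 * Real.pi ^ 2))
        ≤ 1 * 1 * 1 := by gcongr
      _ = 1 := by norm_num
  refine ⟨c, 8 * Real.pi / r, hc0, hc1, ?_, ?_⟩
  · rw [le_div_iff₀ hr0]; linarith
  intro M _ E η a i hE hη hηc hM
  have hη1 : η ≤ 1 := hηc.trans hc1
  have hM0 : (0 : ℝ) < M := by exact_mod_cast Nat.pos_of_ne_zero (NeZero.ne M)
  have hCη : 8 * Real.pi / r ≤ η * M := by
    rw [div_le_iff₀ hη] at hM; linarith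
  have h8 : 8 * Real.pi ≤ 8 * Real.pi / r := by
    rw [le_div_iff₀ hr0]; nlinarith
  have hηM : 8 * Real.pi ≤ η * M := h8.trans hCη
  have hrM : 8 * Real.pi ≤ r * M := by
    have h1 : 8 * Real.pi / r ≤ M := hCη.trans (by nlinarith)
    rw [div_le_iff₀ hr0] at h1
    linarith
  -- the reference angle
  obtain ⟨e₀, he₀⟩ : ∃ e₀, e₀ = E / (2 * d) := ⟨_, rfl⟩
  have hd1 : (0 : ℝ) < 2 * d := by linarith
  have hE2 : 2 * (d : ℝ) * e₀ = E := by rw [he₀]; field_simp
  have he1 : |e₀| ≤ 1 - δ / (2 * d) := by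
    rw [he₀, abs_div, abs_of_pos hd1, div_le_iff₀ hd1]
    have : (1 - δ / (2 * d)) * (2 * d) = 2 * d - δ := by field_simp
    rw [this]; exact hE
  have hdr : (d : ℝ) * r ≤ δ / (2 * d) := by
    calc (d : ℝ) * r ≤ d * (δ / (2 * d ^ 2)) := mul_le_mul_of_nonneg_left hr2 (by linarith)
      _ = δ / (2 * d) := by field_simp
  have he2 := abs_le.1 (he1.trans (by linarith [show 0 ≤ δ / (2 * (d : ℝ)) by positivity] :
    1 - δ / (2 * d) ≤ 1))
  obtain ⟨β, hβ, hβL, hx⟩ := side (θ := Real.arccos e₀) (L := r) (Real.arccos_nonneg e₀)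
    (Real.arccos_le_pi e₀) hr0.le (by linarith)
  obtain ⟨B, hB⟩ := block (M := M) hβ hβL hr0.le
  obtain ⟨n, hn⟩ : ∃ n, n = ⌊r * M / (2 * Real.pi)⌋₊ := ⟨_, rfl⟩
  rw [← hn] at hB
  obtain ⟨m, hm⟩ : ∃ m, m = n / 2 := ⟨_, rfl⟩
  have hmn : 2 * m ≤ n := by omega
  have hnm : n ≤ 2 * m + 1 := by omega
  have hn1 : r * M / (2 * Real.pi) < n + 1 := by rw [hn]; exact Nat.lt_floor_add_one _
  have hn2 : (n : ℝ) ≤ r * M / (2 * Real.pi) := by rw [hn]; exact Nat.floor_le (by positivity)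
  have hmn' : 2 * (m : ℝ) ≤ n := by exact_mod_cast hmn
  have hnm' : (n : ℝ) ≤ 2 * m + 1 := by exact_mod_cast hnm
  have hmr : r / (8 * Real.pi) * M ≤ m := by
    have e1 : r * M / (2 * Real.pi) = 4 * (r / (8 * Real.pi) * M) := by field_simp; ring
    have e2 : 1 ≤ r / (8 * Real.pi) * M := by
      rw [div_mul_eq_mul_div, le_div_iff₀ (by positivity)]; linarith
    linarith
  have hmpi : 2 * Real.pi * (m : ℝ) / M ≤ Real.pi / 2 := by
    have e1 : 2 * Real.pi * (r * M / (2 * Real.pi)) / M = r := by field_simp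
    have e2 : 2 * Real.pi * (m : ℝ) / M ≤ 2 * Real.pi * (r * M / (2 * Real.pi)) / M := by
      apply div_le_div_of_nonneg_right _ hM0.le
      exact mul_le_mul_of_nonneg_left (by linarith) (by positivity)
    linarith
  have hB' : ∀ k < 2 * m, ang M ((B + k : ℕ) : ZMod M) = 2 * Real.pi * ((B + k : ℕ) : ℝ) / M :=
    fun k hk => (hB k (by omega)).2.2
  obtain ⟨W, hW⟩ : ∃ W, W = (Finset.range (2 * m)).image
    (fun k : ℕ => ((B + k : ℕ) : ZMod M)) := ⟨_, rfl⟩
  have hWc : (W.card : ℝ) = 2 * m := by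
    rw [hW, Finset.card_image_of_injOn (block_inj hB'), Finset.card_range]; push_cast; rfl
  have hWx : ∀ x ∈ W, |Real.cos (ang M x) - e₀| ≤ r := by
    intro x hxW
    rw [hW, Finset.mem_image] at hxW
    obtain ⟨k, hk, rfl⟩ := hxW
    have hk' := Finset.mem_range.1 hk
    obtain ⟨b1, b2, b3⟩ := hB k (by omega)
    rw [b3]
    have h5 := Real.abs_cos_sub_cos_le (2 * Real.pi * ((B + k : ℕ) : ℝ) / M) (Real.arccos e₀)
    rw [Real.cos_arccos he2.1 he2.2] at h5
    exact h5.trans (hx _ b1 b2)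
  have hwgt := wgt a hmpi hB'
  rw [← hW] at hwgt
  -- the second coordinate
  haveI : Nontrivial (Fin d) := Fin.nontrivial_iff_two_le.2 (by omega)
  obtain ⟨j, hj⟩ := exists_ne i
  have hij : i ≠ j := hj.symm
  obtain ⟨N, hN⟩ : ∃ N, N = ⌊η / 2 * M / (2 * Real.pi)⌋₊ := ⟨_, rfl⟩
  have hNη : η * M / (8 * Real.pi) ≤ N := by
    have h1 : η / 2 * M / (2 * Real.pi) < N + 1 := by rw [hN]; exact Nat.lt_floor_add_one _
    have e1 : η / 2 * M / (2 * Real.pi) = 2 * (η * M / (8 * Real.pi)) := by field_simp; ring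
    have e2 : 1 ≤ η * M / (8 * Real.pi) := by
      rw [le_div_iff₀ (by positivity)]; linarith
    linarith
  -- the main estimate
  have hmain : (N : ℝ) * ((∑ x ∈ W, Real.sin (ang M x - a) ^ 2) * (W.card : ℝ) ^ (d - 2)) ≤
      ∑ p : Tor d M, (if |es p - E| ≤ η then Real.sin (ang M (p i) - a) ^ 2 else 0) := by
    rw [split j]
    have hcard : Fintype.card {k : Fin d // k ≠ j} = d - 1 := by
      rw [Fintype.card_subtype_compl]; simp
    have h1 := prod_one W (fun x => Real.sin (ang M x - a) ^ 2)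
      (⟨i, hij⟩ : {k : Fin d // k ≠ j})
    rw [hcard, show d - 1 - 1 = d - 2 by omega] at h1
    rw [← h1, Finset.mul_sum]
    calc ∑ q ∈ Fintype.piFinset (fun _ : {k : Fin d // k ≠ j} => W),
          (N : ℝ) * Real.sin (ang M (q ⟨i, hij⟩) - a) ^ 2
        ≤ ∑ q ∈ Fintype.piFinset (fun _ : {k : Fin d // k ≠ j} => W), ∑ x : ZMod M,
          (if |es ((Equiv.funSplitAt j (ZMod M)).symm (x, q)) - E| ≤ η then
            Real.sin (ang M (((Equiv.funSplitAt j (ZMod M)).symm (x, q)) i) - a) ^ 2 else 0) := by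
          apply Finset.sum_le_sum
          intro q hq
          rw [Fintype.mem_piFinset] at hq
          have hpi' : ∀ x : ZMod M, ((Equiv.funSplitAt j (ZMod M)).symm (x, q)) i = q ⟨i, hij⟩ := by
            intro x
            simp [Equiv.funSplitAt, Equiv.piSplitAt, hij]
          have hes : ∀ x : ZMod M, es ((Equiv.funSplitAt j (ZMod M)).symm (x, q)) =
              2 * Real.cos (ang M x) + ∑ k, 2 * Real.cos (ang M (q k)) := by
            intro x
            rw [es_eq, Fintype.sum_eq_add_sum_subtype_ne _ j]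
            congr 1
            · simp [Equiv.funSplitAt, Equiv.piSplitAt]
            · apply Finset.sum_congr rfl
              intro k _
              simp [Equiv.funSplitAt, Equiv.piSplitAt, k.2]
          obtain ⟨y, hy⟩ : ∃ y, y = (E - ∑ k, 2 * Real.cos (ang M (q k))) / 2 := ⟨_, rfl⟩
          have hy1 : |y| ≤ 1 := by
            have e1 : y - e₀ = - ∑ k : {k : Fin d // k ≠ j}, (Real.cos (ang M (q k)) - e₀) := by
              rw [Finset.sum_sub_distrib, Finset.sum_const, Finset.card_univ, hcard, nsmul_eq_mul,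
                hy, ← Finset.mul_sum, ← hE2, Nat.cast_sub (by omega)]
              push_cast
              ring
            have e2 : |y - e₀| ≤ d * r := by
              rw [e1, abs_neg]
              refine (Finset.abs_sum_le_sum_abs _ _).trans ?_
              calc ∑ k : {k : Fin d // k ≠ j}, |Real.cos (ang M (q k)) - e₀|
                  ≤ ∑ _k : {k : Fin d // k ≠ j}, r := Finset.sum_le_sum fun k _ => hWx _ (hq k)
                _ = ((d - 1 : ℕ) : ℝ) * r := by
                    rw [Finset.sum_const, Finset.card_univ, hcard, nsmul_eq_mul]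
                _ ≤ d * r := by
                    apply mul_le_mul_of_nonneg_right _ hr0.le
                    exact_mod_cast Nat.sub_le d 1
            have e3 : |y| ≤ |y - e₀| + |e₀| := by
              have := abs_add_le (y - e₀) e₀
              rwa [sub_add_cancel] at this
            linarith
          have hcnt := cnt (M := M) hy1 hη hη1
          rw [← hN] at hcnt
          have hw0 : 0 ≤ Real.sin (ang M (q ⟨i, hij⟩) - a) ^ 2 := sq_nonneg _
          calc (N : ℝ) * Real.sin (ang M (q ⟨i, hij⟩) - a) ^ 2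
              ≤ (∑ x : ZMod M, if |2 * Real.cos (ang M x) - 2 * y| ≤ η then (1 : ℝ) else 0) *
                Real.sin (ang M (q ⟨i, hij⟩) - a) ^ 2 := mul_le_mul_of_nonneg_right hcnt hw0
            _ = _ := by
              rw [Finset.sum_mul]
              apply Finset.sum_congr rfl
              intro x _
              rw [hpi' x, hes x]
              have e4 : 2 * Real.cos (ang M x) + ∑ k, 2 * Real.cos (ang M (q k)) - E =
                  2 * Real.cos (ang M x) - 2 * y := by rw [hy]; ring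
              rw [e4]
              split_ifs <;> ring
      _ ≤ _ := by
          apply Finset.sum_le_sum_of_subset_of_nonneg (Finset.subset_univ _)
          intro q _ _
          apply Finset.sum_nonneg
          intro x _
          split_ifs
          · exact sq_nonneg _
          · exact le_rfl
  -- conclusion
  have hpm : pm (fun p : Tor d M => if |es p - E| ≤ η then
      Real.sin (2 * Real.pi * ((p i).valMinAbs : ℝ) / M - a) ^ 2 else 0) =
      (∑ p : Tor d M, (if |es p - E| ≤ η then Real.sin (ang M (p i) - a) ^ 2 else 0)) /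
        (M : ℝ) ^ d := rfl
  rw [hpm, le_div_iff₀ (by positivity)]
  refine le_trans ?_ hmain
  have hm0 : (0 : ℝ) ≤ m := Nat.cast_nonneg m
  have hrm0 : 0 ≤ r / (8 * Real.pi) * M := by positivity
  have hsum : r / (8 * Real.pi) * M * (r ^ 2 / (8 * Real.pi ^ 2)) ≤
      ∑ x ∈ W, Real.sin (ang M x - a) ^ 2 := by
    refine le_trans ?_ hwgt
    apply mul_le_mul hmr _ (by positivity) hm0
    have h1 : r / 4 ≤ 2 * Real.pi * (m : ℝ) / M := by
      rw [le_div_iff₀ hM0]
      calc r / 4 * M = 2 * Real.pi * (r / (8 * Real.pi) * M) := by field_simp; ring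
        _ ≤ 2 * Real.pi * m := mul_le_mul_of_nonneg_left hmr (by positivity)
    calc r ^ 2 / (8 * Real.pi ^ 2) = 2 / Real.pi ^ 2 * (r / 4) ^ 2 := by field_simp; ring
      _ ≤ _ := by gcongr
  have hcardpow : (r / (8 * Real.pi) * M) ^ (d - 2) ≤ (W.card : ℝ) ^ (d - 2) := by
    rw [hWc]
    exact pow_le_pow_left₀ hrm0 (by linarith) _
  calc c * η * (M : ℝ) ^ d = (η * M / (8 * Real.pi)) *
        ((r / (8 * Real.pi) * M * (r ^ 2 / (8 * Real.pi ^ 2))) *
          (r / (8 * Real.pi) * M) ^ (d - 2)) := by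
        rw [hc]
        have e1 : d - 1 = (d - 2) + 1 := by omega
        have e2 : d = (d - 2) + 2 := by omega
        rw [e1]
        conv_lhs => rw [e2]
        simp only [Nat.add_sub_cancel]
        rw [pow_succ, mul_pow, pow_add]
        ring
    _ ≤ (N : ℝ) * ((∑ x ∈ W, Real.sin (ang M x - a) ^ 2) * (W.card : ℝ) ^ (d - 2)) := by
        apply mul_le_mul hNη _ (by positivity) (Nat.cast_nonneg N)
        apply mul_le_mul hsum hcardpow (by positivity)
        exact Finset.sum_nonneg fun x _ => sq_nonneg _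

end Pool.Agent.LE.QD.H69
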